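import Pool.Agent.H44.NB.Gen
import Pool.Agent.H44.NB.PA

/-!
# Palindromic prefixes of almost all algebraic numbers, up to the height

The counting lemma PA is by helper761, DG by helper514, MC by helper135.
-/

set_option autoImplicit false

namespace Pool.Agent.Results.MP_66aed5_nt.PalindromesUpToHeight

open Finset Polynomial Pool.Agent.Results.MP_c307ca_nt.AlmostAllToHeight Pool.Agent.H44.NB

theorem pal_mem (b : ℕ) (hb : 2 ≤ b) (ξ : ℝ) (N : ℕ)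
    (hpal : ∀ i : ℕ, 1 ≤ i → i ≤ N →
      ⌊ξ * (b : ℝ) ^ i⌋ % (b : ℤ) = ⌊ξ * (b : ℝ) ^ (N + 1 - i)⌋ % (b : ℤ)) :
    (⌊ξ * (b : ℝ) ^ N⌋ % ((b : ℤ) ^ N)).toNat ∈ (range (b ^ N)).filter
      (fun m => ∀ j < N, (m / b ^ j) % b = (m / b ^ (N - 1 - j)) % b) := by
  have hbN : (0 : ℤ) < (b : ℤ) ^ N := by
    have : 0 < b ^ N := Nat.pow_pos (by omega)
    exact_mod_cast this
  rw [Finset.mem_filter, Finset.mem_range]
  refine ⟨?_, ?_⟩
  · have h8 := Int.emod_lt_of_pos ⌊ξ * (b : ℝ) ^ N⌋ hbN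
    have h9 := Int.emod_nonneg ⌊ξ * (b : ℝ) ^ N⌋ hbN.ne'
    have h10 : ((⌊ξ * (b : ℝ) ^ N⌋ % (b : ℤ) ^ N).toNat : ℤ) < ((b ^ N : ℕ) : ℤ) := by
      rw [Int.toNat_of_nonneg h9]
      push_cast
      exact h8
    exact_mod_cast h10
  · intro j hj
    set r := (⌊ξ * (b : ℝ) ^ N⌋ % ((b : ℤ) ^ N)).toNat with hr
    have k1 := (DGkey b hb ξ N ((r / b ^ j) % b) (N - j) (by omega) (by omega)).mpr (by
      rw [show N - (N - j) = j by omega])
    have k2 := (DGkey b hb ξ N ((r / b ^ (N - 1 - j)) % b) (j + 1) (by omega) (by omega)).mpr (by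
      rw [show N - (j + 1) = N - 1 - j by omega])
    have k3 := hpal (N - j) (by omega) (by omega)
    rw [show N + 1 - (N - j) = j + 1 by omega] at k3
    rw [k1, k2] at k3
    exact_mod_cast k3

/-- **Almost all real algebraic numbers have only short palindromic prefixes up to their height.** -/
theorem result (d : ℕ) (hd : 2 ≤ d) (b : ℕ) (hb : 2 ≤ b) (η : ℝ) (hη : 0 < η) :
    ∃ n₀ : ℕ, ∀ H : ℕ, 1 ≤ H →
      {ξ : ℝ | (∃ P : Polynomial ℤ, P.natDegree = d ∧ (∀ i, |P.coeff i| ≤ (H : ℤ)) ∧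
          Irreducible (P.map (Int.castRingHom ℚ)) ∧ Polynomial.aeval ξ P = 0) ∧
        ∃ N : ℕ, n₀ ≤ N ∧ b ^ N ≤ H ∧ ∀ i : ℕ, 1 ≤ i → i ≤ N →
          ⌊ξ * (b : ℝ) ^ i⌋ % (b : ℤ) = ⌊ξ * (b : ℝ) ^ (N + 1 - i)⌋ % (b : ℤ)}.Finite ∧
      ({ξ : ℝ | (∃ P : Polynomial ℤ, P.natDegree = d ∧ (∀ i, |P.coeff i| ≤ (H : ℤ)) ∧
          Irreducible (P.map (Int.castRingHom ℚ)) ∧ Polynomial.aeval ξ P = 0) ∧
        ∃ N : ℕ, n₀ ≤ N ∧ b ^ N ≤ H ∧ ∀ i : ℕ, 1 ≤ i → i ≤ N →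
          ⌊ξ * (b : ℝ) ^ i⌋ % (b : ℤ) = ⌊ξ * (b : ℝ) ^ (N + 1 - i)⌋ % (b : ℤ)}.ncard : ℝ) ≤
        η * (H : ℝ) ^ (d + 1) := by
  classical
  have hbR : (1 : ℝ) < b := by
    have : 1 < b := by omega
    exact_mod_cast this
  have hsq : 1 < Real.sqrt b := by
    rw [show (1 : ℝ) = Real.sqrt 1 from Real.sqrt_one.symm]
    exact Real.sqrt_lt_sqrt (by norm_num) hbR
  set ρ : ℝ := (Real.sqrt b)⁻¹ with hρdef
  have hρ0 : 0 < ρ := by positivity
  have hρ1 : ρ < 1 := inv_lt_one_of_one_lt₀ hsq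
  set Bad : ℕ → Finset ℕ := fun N => (range (b ^ N)).filter
    (fun m => ∀ j < N, (m / b ^ j) % b = (m / b ^ (N - 1 - j)) % b) with hBad
  have hρ : ∀ N : ℕ, ((Bad N).card : ℝ) ≤ Real.sqrt b * ρ ^ N * b ^ N := by
    intro N
    have h1 : ((Bad N).card : ℝ) ≤ ((b ^ (N - N / 2) : ℕ) : ℝ) := Nat.cast_le.mpr (PA b N hb)
    refine h1.trans ?_
    push_cast
    have hs : Real.sqrt b * Real.sqrt b = b := Real.mul_self_sqrt (by positivity)
    have hs0 : 0 < Real.sqrt b := by positivity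
    have e1 : Real.sqrt b * ρ ^ N * (b : ℝ) ^ N = Real.sqrt b ^ (N + 1) := by
      have e2 : (b : ℝ) ^ N = Real.sqrt b ^ N * Real.sqrt b ^ N := by
        rw [← mul_pow, hs]
      rw [e2, hρdef, inv_pow, pow_succ]
      field_simp
    have e3 : (b : ℝ) ^ (N - N / 2) = Real.sqrt b ^ (2 * (N - N / 2)) := by
      rw [pow_mul, sq, hs]
    rw [e1, e3]
    exact pow_le_pow_right₀ hsq.le (by omega)
  have hd0 : (0 : ℝ) < d := by
    have : 0 < d := by omega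
    exact_mod_cast this
  set T : ℕ := ⌈4 * (d : ℝ) * 3 ^ d / η⌉₊ + 2 with hTdef
  have hT : 2 ≤ T := by omega
  have hT1 : 4 * (d : ℝ) * 3 ^ d / η ≤ (T : ℝ) - 1 := by
    have h1 := Nat.le_ceil (4 * (d : ℝ) * 3 ^ d / η)
    rw [hTdef]
    push_cast
    linarith
  have hT2 : (2 : ℝ) ≤ T := by exact_mod_cast hT
  have hT3 : (0 : ℝ) < (T : ℝ) - 1 := by linarith
  have hTη : 2 * 3 ^ d / ((T : ℝ) - 1) ≤ η / (2 * d) := by
    rw [div_le_iff₀ hη] at hT1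
    rw [div_le_div_iff₀ hT3 (by positivity)]
    nlinarith
  have hK0 := KK_nonneg d T
  set Z : ℝ := ((2 * T + 3) * Real.sqrt b * (2 * KK d T * 4 ^ d)) with hZ
  have hZ0 : 0 ≤ Z := by rw [hZ]; positivity
  have h1ρ : 0 < 1 - ρ := by linarith
  obtain ⟨n₀, hn₀⟩ := exists_pow_lt_of_lt_one
    (show 0 < η * (1 - ρ) / (2 * d * (Z + 1)) by positivity) hρ1
  have hcZ : Z * (ρ ^ n₀ / (1 - ρ)) ≤ η / (2 * d) := by
    calc Z * (ρ ^ n₀ / (1 - ρ)) ≤ (Z + 1) * ((η * (1 - ρ) / (2 * d * (Z + 1))) / (1 - ρ)) := by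
          refine mul_le_mul (by linarith) ?_ (by positivity) (by positivity)
          exact div_le_div_of_nonneg_right hn₀.le h1ρ.le
      _ = η / (2 * d) := by
          field_simp
  refine ⟨n₀, fun H hH => ?_⟩
  set S : Set ℝ := {ξ : ℝ | (∃ P : Polynomial ℤ, P.natDegree = d ∧
      (∀ i, |P.coeff i| ≤ (H : ℤ)) ∧
          Irreducible (P.map (Int.castRingHom ℚ)) ∧ Polynomial.aeval ξ P = 0) ∧
        ∃ N : ℕ, n₀ ≤ N ∧ b ^ N ≤ H ∧ ∀ i : ℕ, 1 ≤ i → i ≤ N →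
          ⌊ξ * (b : ℝ) ^ i⌋ % (b : ℤ) = ⌊ξ * (b : ℝ) ^ (N + 1 - i)⌋ % (b : ℤ)} with hS
  set BB : Finset (Fin (d + 1) → ℤ) := (box (d + 1) (H : ℤ)).filter (fun v =>
    ∃ P : Polynomial ℤ, (fun i : Fin (d + 1) => P.coeff i) = v ∧ P.natDegree = d ∧
      (∀ i, |P.coeff i| ≤ (H : ℤ)) ∧ Irreducible (P.map (Int.castRingHom ℚ)) ∧
      ∃ ξ : ℝ, Polynomial.aeval ξ P = 0 ∧ ∃ N : ℕ, n₀ ≤ N ∧ b ^ N ≤ H ∧ ∀ i : ℕ, 1 ≤ i → i ≤ N →
          ⌊ξ * (b : ℝ) ^ i⌋ % (b : ℤ) = ⌊ξ * (b : ℝ) ^ (N + 1 - i)⌋ % (b : ℤ)) with hBB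
  have hcount := main_strings d b hb Bad (Real.sqrt b) ρ (by positivity) hρ0 hρ1 hρ T hT n₀ H hH BB (by
    intro v hv
    rw [hBB, Finset.mem_filter] at hv
    obtain ⟨_, P, hPa, hPd, hPH, hPirr, ξ, hξ, N, hN0, hNH, hpal⟩ := hv
    subst hPa
    refine ⟨fun i => hPH i, ?_, ?_, ξ, ?_, N, hN0, hNH, pal_mem b hb ξ N hpal⟩
    · have h1 : P ≠ 0 := by
        intro h0
        rw [h0, Polynomial.natDegree_zero] at hPd
        omega
      have h2 : P.coeff d ≠ 0 := by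
        rw [← hPd]
        exact Polynomial.leadingCoeff_ne_zero.mpr h1
      simpa using h2
    · intro p' q' _
      rw [ev_eq_aeval d P hPd]
      exact no_rat_root d hd P hPd hPirr p' q'
    · rw [ev_eq_aeval d P hPd]
      exact hξ)
  set U : Finset ℝ := BB.biUnion (fun a => ((polZ a).map (Int.castRingHom ℝ)).roots.toFinset)
    with hU
  have hSU : S ⊆ (U : Set ℝ) := by
    rintro ξ ⟨⟨P, hPd, hPH, hPirr, hξ⟩, hdig⟩
    rw [hU, Finset.mem_coe, Finset.mem_biUnion]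
    refine ⟨fun i : Fin (d + 1) => P.coeff i, ?_, ?_⟩
    · rw [hBB, Finset.mem_filter]
      exact ⟨mem_box fun i => hPH i, P, rfl, hPd, hPH, hPirr, ξ, hξ, hdig⟩
    · rw [polZ_coeff d P hPd, Multiset.mem_toFinset, Polynomial.mem_roots', Polynomial.IsRoot,
        Polynomial.eval_map]
      refine ⟨?_, hξ⟩
      rw [Polynomial.map_ne_zero_iff (RingHom.injective_int (Int.castRingHom ℝ))]
      intro h0
      rw [h0, Polynomial.natDegree_zero] at hPd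
      omega
  have hUcard : U.card ≤ BB.card * d := by
    refine Finset.card_biUnion_le_card_mul _ _ _ fun a ha => ?_
    rw [hBB, Finset.mem_filter] at ha
    obtain ⟨_, P, hPa, hPd, _⟩ := ha
    rw [← hPa, polZ_coeff d P hPd]
    refine (Multiset.toFinset_card_le _).trans ((Polynomial.card_roots' _).trans ?_)
    exact Polynomial.natDegree_map_le.trans hPd.le
  refine ⟨U.finite_toSet.subset hSU, ?_⟩
  have h1 : S.ncard ≤ U.card := by
    rw [← Set.ncard_coe_finset]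
    exact Set.ncard_le_ncard hSU U.finite_toSet
  have h2 : (S.ncard : ℝ) ≤ (BB.card : ℝ) * d := by exact_mod_cast h1.trans hUcard
  refine h2.trans ?_
  have hHp : (0 : ℝ) ≤ (H : ℝ) ^ (d + 1) := by positivity
  calc (BB.card : ℝ) * d ≤ ((H : ℝ) ^ (d + 1) * (2 * 3 ^ d / (T - 1) +
      Z * (ρ ^ n₀ / (1 - ρ)))) * d :=
        mul_le_mul_of_nonneg_right hcount hd0.le
    _ ≤ ((H : ℝ) ^ (d + 1) * (η / (2 * d) + η / (2 * d))) * d := by
        refine mul_le_mul_of_nonneg_right ?_ hd0.le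
        exact mul_le_mul_of_nonneg_left (add_le_add hTη hcZ) hHp
    _ = η * (H : ℝ) ^ (d + 1) := by
        field_simp
        ring

end Pool.Agent.Results.MP_66aed5_nt.PalindromesUpToHeight
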